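import Pool.Agent.Q235.FE.Ld

/-!
# Large and small truncated central values `L(1/2, χ_m)` over numbers with few changed digits

Let `N` be an ARBITRARY integer with at most `K` digits in base `β`, and let `m` arise from `N` by changing `r ≤ K / 2` of
its digits, to prescribed digits different from the old ones. We consider the choices of the `r` positions for which `m`
is not divisible by the square of any prime `β² < p ≤ x` (the free choices, at least a quarter of all choices), and the Euler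
products `L_x(1/2, χ_D) = ∏ (1 - χ_D(p) p^{-1/2})⁻¹` over the primes `β² < p ≤ x`, for `D = m` and `D = -m`. We show: for all
real `ρ ≥ 1/2`, `x → ∞` and `x ≤ c √r` the proportion of the free choices with

  `L_x(1/2, χ_D) ≥ (log x)^ρ`  is  `(log x)^{-(ρ - 1/2)² / 2 + o(1)}`,

and for `ρ ≤ 1/2` the proportion of the free choices with `L_x(1/2, χ_D) ≤ (log x)^ρ` is `(log x)^{-(ρ - 1/2)² / 2 + o(1)}`.
These are the large deviations which correspond to the orders `(log x)^{k(k+1)/2}` of the moments, the orders of the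
conjecture of Conrey, Farmer, Keating, Rubinstein and Snaith: the `k`-th moment comes from the `m` with
`L_x(1/2, χ_m) = (log x)^{k + 1/2 + o(1)}`, a proportion `(log x)^{-k²/2 + o(1)}` of all.
-/

set_option autoImplicit false

namespace Pool.Agent.Results.MP_ea46f5_nt.FewDigitLargeValues

open Finset
open Pool.Agent.Q235.FD (change digit)
open Pool.Agent.Q235.FE (primesBetween freeChoices proportion)

/-- `L_x(1/2, χ_D)`; the values of the character are written as symbols of Jacobi. -/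
noncomputable def central (β x : ℕ) (D : ℤ) : ℝ :=
  ∏ p ∈ primesBetween β x, (1 - (jacobiSym D p : ℝ) / Real.sqrt p)⁻¹

lemma central_eq (β x : ℕ) (D : ℤ) :
    central β x D = (Pool.Agent.Q235.FE.euler β x (fun _ => 1) (fun _ => 0) D)⁻¹ := by
  unfold central Pool.Agent.Q235.FE.euler
  rw [← prod_inv_distrib]
  refine prod_congr rfl fun p _ => ?_
  rw [one_mul, zero_mul, add_zero]

/-- **Large and small truncated central values.** Let `β ≥ 2` be a base, `ρ` real and `ε > 0`. There are `c > 0` and `X₀`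
such that for all `x ≥ X₀`, all integers `N` with at most `K` digits in base `β`, all `r ≤ K / 2` with `x ≤ c √r`, all
prescribed new digits `f j` (different from the digits of `N`) and `D = m` or `D = -m`, `m` the number obtained:

1. if `ρ ≥ 1/2`, the proportion of the free choices of `r` positions with `(log x)^ρ ≤ L_x(1/2, χ_D)` is between
   `(log x)^(-(ρ - 1/2)² / 2 - ε)` and `(log x)^(-(ρ - 1/2)² / 2 + ε)`;
2. if `ρ ≤ 1/2`, the same for the proportion of the free choices with `L_x(1/2, χ_D) ≤ (log x)^ρ`. -/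
theorem result (β : ℕ) (hβ : 2 ≤ β) (ρ ε : ℝ) (hε : 0 < ε) : ∃ (c : ℝ) (X₀ : ℕ), 0 < c ∧
    ∀ (x K r N : ℕ) (f : ℕ → ℕ), X₀ ≤ x → 2 * r ≤ K → (x : ℝ) ≤ c * Real.sqrt r → N < β ^ K →
      (∀ j, f j < β ∧ f j ≠ digit β j N) → ∀ t : ℤ, (t = 1 ∨ t = -1) →
      (1 / 2 ≤ ρ →
        Real.log x ^ (-((ρ - 1 / 2) ^ 2 / 2) - ε) ≤
          proportion (freeChoices β K r N f x) (fun S => Real.log x ^ ρ ≤ central β x (t * (change β K N f S : ℕ))) ∧
        proportion (freeChoices β K r N f x) (fun S => Real.log x ^ ρ ≤ central β x (t * (change β K N f S : ℕ))) ≤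
          Real.log x ^ (-((ρ - 1 / 2) ^ 2 / 2) + ε)) ∧
      (ρ ≤ 1 / 2 →
        Real.log x ^ (-((ρ - 1 / 2) ^ 2 / 2) - ε) ≤
          proportion (freeChoices β K r N f x) (fun S => central β x (t * (change β K N f S : ℕ)) ≤ Real.log x ^ ρ) ∧
        proportion (freeChoices β K r N f x) (fun S => central β x (t * (change β K N f S : ℕ)) ≤ Real.log x ^ ρ) ≤
          Real.log x ^ (-((ρ - 1 / 2) ^ 2 / 2) + ε)) := by
  obtain ⟨C₀, hC₀, H₀⟩ := Pool.Agent.Q235.FE.sum_between hβ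
  have hu : ∀ (_ : Unit) (p : ℕ), |(fun _ : ℕ => (1 : ℝ)) p| ≤ 1 + (fun _ : ℕ => (0 : ℝ)) p := fun _ _ => by norm_num
  have hv : ∀ (_ : Unit) (p : ℕ), (fun _ : ℕ => (0 : ℝ)) p = 0 ∨ (fun _ : ℕ => (0 : ℝ)) p = 1 := fun _ _ => Or.inl rfl
  have hX : ∀ κ ε' : ℝ, 0 < ε' → ∃ X₂ : ℕ, ∀ _ : Unit, ∀ x : ℕ, X₂ ≤ x →
      |∑ p ∈ primesBetween β x, (κ * (κ + 1) * ((fun _ : ℕ => (1 : ℝ)) p) ^ 2 / 2 - κ * (fun _ : ℕ => (0 : ℝ)) p) / p -
        (κ ^ 2 / 2 + 1 / 2 * κ) * Real.log (Real.log x)| ≤ ε' * Real.log (Real.log x) := by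
    intro κ ε' hε'
    obtain ⟨X₁, hX₁⟩ := Filter.eventually_atTop.1
      (Pool.Agent.Q28.BP.tendsto_loglog.eventually_ge_atTop (|κ ^ 2 / 2 + 1 / 2 * κ| * C₀ / ε'))
    refine ⟨max X₁ 3, fun _ x hx => ?_⟩
    have h1 := hX₁ x ((le_max_left _ _).trans hx)
    rw [div_le_iff₀ hε'] at h1
    have h2 := H₀ x ((le_max_right _ _).trans hx)
    have e1 : ∑ p ∈ primesBetween β x, (κ * (κ + 1) * ((fun _ : ℕ => (1 : ℝ)) p) ^ 2 / 2 - κ * (fun _ : ℕ => (0 : ℝ)) p) / p -
        (κ ^ 2 / 2 + 1 / 2 * κ) * Real.log (Real.log x) =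
        (κ ^ 2 / 2 + 1 / 2 * κ) * (∑ p ∈ primesBetween β x, 1 / (p : ℝ) - Real.log (Real.log x)) := by
      rw [mul_sub, mul_sum]
      congr 1
      refine sum_congr rfl fun p _ => ?_
      ring
    rw [e1, abs_mul]
    have h3 := mul_le_mul_of_nonneg_left h2 (abs_nonneg (κ ^ 2 / 2 + 1 / 2 * κ))
    linarith
  -- both tails
  have big : ∃ (c : ℝ) (X₀ : ℕ), 0 < c ∧ 16 ≤ X₀ ∧ (1 / 2 ≤ ρ → ∀ (x K r N : ℕ) (f : ℕ → ℕ), X₀ ≤ x → 2 * r ≤ K →
      (x : ℝ) ≤ c * Real.sqrt r → N < β ^ K → (∀ j, f j < β ∧ f j ≠ digit β j N) → ∀ t : ℤ, (t = 1 ∨ t = -1) →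
        Real.log x ^ (-((ρ - 1 / 2) ^ 2 / 2) - ε) ≤
          proportion (freeChoices β K r N f x) (fun S => Real.log x ^ ρ ≤ central β x (t * (change β K N f S : ℕ))) ∧
        proportion (freeChoices β K r N f x) (fun S => Real.log x ^ ρ ≤ central β x (t * (change β K N f S : ℕ))) ≤
          Real.log x ^ (-((ρ - 1 / 2) ^ 2 / 2) + ε)) := by
    by_cases hρ : 1 / 2 ≤ ρ
    · obtain ⟨c, X₀, hc, h16, H⟩ := Pool.Agent.Q235.FE.ld_family β hβ (1 / 2) (fun _ : Unit => fun _ : ℕ => (1 : ℝ))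
        (fun _ : Unit => fun _ : ℕ => (0 : ℝ)) hu hv hX 1 (Or.inl rfl) ρ ε (by linarith) hε
      refine ⟨c, X₀, hc, h16, fun _ x K r N f hx hrK hxr hN hf t ht => ?_⟩
      have h1 := H () x K r N f hx hrK hxr hN hf t ht
      have hlx : 0 < Real.log x := Real.log_pos (by exact_mod_cast (by omega : 1 < x))
      have e : (fun S : Finset ℕ => ρ * Real.log (Real.log x) ≤
          -1 * Real.log (Pool.Agent.Q235.FE.euler β x (fun _ => 1) (fun _ => 0) (t * (change β K N f S : ℕ)))) =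
          fun S => Real.log x ^ ρ ≤ central β x (t * (change β K N f S : ℕ)) := by
        funext S
        have h2 := Pool.Agent.Q235.FE.euler_pos (x := x) hβ (fun _ => 1) (fun _ => 0) (hu ()) (hv ()) (t * (change β K N f S : ℕ))
        rw [central_eq]
        have h3 : -1 * Real.log (Pool.Agent.Q235.FE.euler β x (fun _ => 1) (fun _ => 0) (t * (change β K N f S : ℕ))) =
          Real.log (Pool.Agent.Q235.FE.euler β x (fun _ => 1) (fun _ => 0) (t * (change β K N f S : ℕ)))⁻¹ := by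
          rw [Real.log_inv]
          ring
        rw [h3, Real.le_log_iff_exp_le (inv_pos.2 h2), Real.rpow_def_of_pos hlx, mul_comm]
      rw [one_mul, e] at h1
      exact h1
    · exact ⟨1, 16, one_pos, le_rfl, fun h => absurd h hρ⟩
  have small : ∃ (c : ℝ) (X₀ : ℕ), 0 < c ∧ 16 ≤ X₀ ∧ (ρ ≤ 1 / 2 → ∀ (x K r N : ℕ) (f : ℕ → ℕ), X₀ ≤ x → 2 * r ≤ K →
      (x : ℝ) ≤ c * Real.sqrt r → N < β ^ K → (∀ j, f j < β ∧ f j ≠ digit β j N) → ∀ t : ℤ, (t = 1 ∨ t = -1) →
        Real.log x ^ (-((ρ - 1 / 2) ^ 2 / 2) - ε) ≤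
          proportion (freeChoices β K r N f x) (fun S => central β x (t * (change β K N f S : ℕ)) ≤ Real.log x ^ ρ) ∧
        proportion (freeChoices β K r N f x) (fun S => central β x (t * (change β K N f S : ℕ)) ≤ Real.log x ^ ρ) ≤
          Real.log x ^ (-((ρ - 1 / 2) ^ 2 / 2) + ε)) := by
    by_cases hρ : ρ ≤ 1 / 2
    · obtain ⟨c, X₀, hc, h16, H⟩ := Pool.Agent.Q235.FE.ld_family β hβ (1 / 2) (fun _ : Unit => fun _ : ℕ => (1 : ℝ))
        (fun _ : Unit => fun _ : ℕ => (0 : ℝ)) hu hv hX (-1) (Or.inr rfl) (-ρ) ε (by linarith) hε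
      refine ⟨c, X₀, hc, h16, fun _ x K r N f hx hrK hxr hN hf t ht => ?_⟩
      have h1 := H () x K r N f hx hrK hxr hN hf t ht
      have hlx : 0 < Real.log x := Real.log_pos (by exact_mod_cast (by omega : 1 < x))
      have e : (fun S : Finset ℕ => -ρ * Real.log (Real.log x) ≤
          - -1 * Real.log (Pool.Agent.Q235.FE.euler β x (fun _ => 1) (fun _ => 0) (t * (change β K N f S : ℕ)))) =
          fun S => central β x (t * (change β K N f S : ℕ)) ≤ Real.log x ^ ρ := by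
        funext S
        have h2 := Pool.Agent.Q235.FE.euler_pos (x := x) hβ (fun _ => 1) (fun _ => 0) (hu ()) (hv ()) (t * (change β K N f S : ℕ))
        rw [central_eq]
        have h3 : (-ρ * Real.log (Real.log x) ≤
          - -1 * Real.log (Pool.Agent.Q235.FE.euler β x (fun _ => 1) (fun _ => 0) (t * (change β K N f S : ℕ)))) ↔
          (Real.log (Pool.Agent.Q235.FE.euler β x (fun _ => 1) (fun _ => 0) (t * (change β K N f S : ℕ)))⁻¹ ≤
            ρ * Real.log (Real.log x)) := by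
          rw [Real.log_inv]
          constructor <;> intro h <;> linarith
        rw [h3, Real.log_le_iff_le_exp (inv_pos.2 h2), Real.rpow_def_of_pos hlx, mul_comm (Real.log (Real.log x)) ρ]
      have e2 : (-ρ - -1 * (1 / 2)) ^ 2 = (ρ - 1 / 2) ^ 2 := by ring
      rw [e, e2] at h1
      exact h1
    · exact ⟨1, 16, one_pos, le_rfl, fun h => absurd h hρ⟩
  obtain ⟨c₁, X₁, hc₁, _, H₁⟩ := big
  obtain ⟨c₂, X₂, hc₂, _, H₂⟩ := small
  refine ⟨min c₁ c₂, max X₁ X₂, lt_min hc₁ hc₂, fun x K r N f hx hrK hxr hN hf t ht => ⟨fun h => ?_, fun h => ?_⟩⟩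
  · exact H₁ h x K r N f ((le_max_left _ _).trans hx) hrK
      (hxr.trans (mul_le_mul_of_nonneg_right (min_le_left _ _) (Real.sqrt_nonneg _))) hN hf t ht
  · exact H₂ h x K r N f ((le_max_right _ _).trans hx) hrK
      (hxr.trans (mul_le_mul_of_nonneg_right (min_le_right _ _) (Real.sqrt_nonneg _))) hN hf t ht

end Pool.Agent.Results.MP_ea46f5_nt.FewDigitLargeValues
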