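import Pool.Agent.Q235.FE.MomR

/-!
# The moments of the truncated central values `L(1/2, χ_m)` over numbers with few changed digits

Let `N` be an ARBITRARY integer with at most `K` digits in base `β`, and let `m` arise from `N` by changing `r ≤ K / 2` of
its digits, to prescribed digits different from the old ones. We average over the choices of the `r` positions for which `m`
is not divisible by the square of any prime `β² < p ≤ x` (the free choices, at least a quarter of all choices). Let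
`L_x(s, χ_m) = ∏ (1 - χ_m(p) p^{-s})⁻¹`, the product over the primes `β² < p ≤ x`, and `χ_{-m}` similarly.

The conjecture of Conrey, Farmer, Keating, Rubinstein and Snaith predicts the moments of `L(1/2, χ_d)` over the fundamental
discriminants from `A_k(z) ∏_{i ≤ j} ζ(1 + z_i + z_j)`. We show for these very sparse families, for all `x ≤ c √r`:

1. for every `k` the average of `∏_j L_x(1/2 + z_j, χ_m)` is the Euler product of `A_k(z) ∏_{i ≤ j} ζ(1 + z_i + z_j)`,
   restricted to the same primes, up to an error of at most `3^{-A x}`, uniformly for all `z` with `Re z_j ≥ -1/4`;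
2. for ALL real `κ`, positive or negative, the average of `L_x(1/2, χ_m)^κ` has the exact order `(log x)^{κ(κ+1)/2}`.

The numbers `c` depend on `β` and `k`, `A` or `κ` only.
-/

set_option autoImplicit false

namespace Pool.Agent.Results.MP_ea46f5_nt.FewDigitMoments

open Finset
open Pool.Agent.Q235.FD (change digit)
open Pool.Agent.Q235.FE (primesBetween freeChoices)

/-- `∏_j L_x(1/2 + z_j, χ_m)`, the Euler products over the primes `β² < p ≤ x`; the values of the characters are written as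
symbols of Jacobi. -/
noncomputable def shifted {k : ℕ} (β x : ℕ) (z : Fin k → ℂ) (m : ℤ) : ℂ :=
  ∏ j, ∏ p ∈ primesBetween β x, (1 - (jacobiSym m p : ℂ) * (p : ℂ) ^ (-(1 / 2 : ℂ) - z j))⁻¹

/-- `L_x(1/2, χ_m)` -/
noncomputable def central (β x : ℕ) (m : ℤ) : ℝ :=
  ∏ p ∈ primesBetween β x, (1 - (jacobiSym m p : ℝ) / Real.sqrt p)⁻¹

/-- The Euler factor of `A_k(z)` at `p`. -/
noncomputable def arithmetic {k : ℕ} (z : Fin k → ℂ) (p : ℕ) : ℂ :=
  (∏ i, ∏ j with i ≤ j, (1 - (p : ℂ) ^ (-1 - z i - z j))) *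
    (1 / 2 * (∏ j, (1 - (p : ℂ) ^ (-(1 / 2 : ℂ) - z j))⁻¹ + ∏ j, (1 + (p : ℂ) ^ (-(1 / 2 : ℂ) - z j))⁻¹) + 1 / p) *
    (1 + 1 / (p : ℂ))⁻¹

/-- The Euler factor of `∏_{i ≤ j} ζ(1 + z_i + z_j)` at `p`. -/
noncomputable def zetas {k : ℕ} (z : Fin k → ℂ) (p : ℕ) : ℂ :=
  ∏ i, ∏ j with i ≤ j, (1 - (p : ℂ) ^ (-1 - z i - z j))⁻¹

lemma norm_cpow {p : ℕ} (hp : 0 < p) (w : ℂ) : ‖(p : ℂ) ^ w‖ = (p : ℝ) ^ w.re := by
  rw [Complex.norm_natCast_cpow_of_pos hp]

/-- **The moments of truncated central values over numbers with few changed digits.** Let `β ≥ 2` be a base.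

1. For all `k` and `A ≥ 0` there is `c > 0` such that for all `x ≥ 1`, all integers `N` with at most `K` digits in base `β`,
   all `r ≤ K / 2` with `x ≤ c √r` and all prescribed new digits `f j` (different from the digits of `N`) at least a quarter
   of the choices of `r` positions are free, and for all `z` with `Re z_j ≥ -1/4` the average of `∏_j L_x(1/2 + z_j, χ_m)`
   over the free choices is the product of the Euler factors of `A_k(z) ∏_{i ≤ j} ζ(1 + z_i + z_j)` at the primes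
   `β² < p ≤ x`, up to `3^{-A x}`; the same for `-m` instead of `m`.
2. For all real `κ` there are `c, C > 0` such that in the same situation, for all `x ≥ 3`, the average of
   `L_x(1/2, χ_m)^κ` over the free choices is between `C⁻¹ (log x)^{κ(κ+1)/2}` and `C (log x)^{κ(κ+1)/2}`; the same for
   `-m`. -/
theorem result (β : ℕ) (hβ : 2 ≤ β) :
    (∀ (k : ℕ) (A : ℝ), 0 ≤ A → ∃ c : ℝ, 0 < c ∧ ∀ (x K r N : ℕ) (f : ℕ → ℕ), 1 ≤ x → 2 * r ≤ K →
      (x : ℝ) ≤ c * Real.sqrt r → N < β ^ K → (∀ j, f j < β ∧ f j ≠ digit β j N) →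
      (K.choose r : ℝ) / 4 ≤ (freeChoices β K r N f x).card ∧
      ∀ t : ℤ, (t = 1 ∨ t = -1) → ∀ z : Fin k → ℂ, (∀ j, -(1 / 4) ≤ (z j).re) →
        ‖(∑ S ∈ freeChoices β K r N f x, shifted β x z (t * (change β K N f S : ℕ))) / (freeChoices β K r N f x).card -
          ∏ p ∈ primesBetween β x, (arithmetic z p * zetas z p)‖ ≤ (3 : ℝ) ^ (-(A * x))) ∧
    ∀ κ : ℝ, ∃ c C : ℝ, 0 < c ∧ 0 < C ∧ ∀ (x K r N : ℕ) (f : ℕ → ℕ), 3 ≤ x → 2 * r ≤ K →
      (x : ℝ) ≤ c * Real.sqrt r → N < β ^ K → (∀ j, f j < β ∧ f j ≠ digit β j N) → ∀ t : ℤ, (t = 1 ∨ t = -1) →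
        C⁻¹ * Real.log x ^ (κ * (κ + 1) / 2) ≤
          (∑ S ∈ freeChoices β K r N f x, central β x (t * (change β K N f S : ℕ)) ^ κ) /
            (freeChoices β K r N f x).card ∧
        (∑ S ∈ freeChoices β K r N f x, central β x (t * (change β K N f S : ℕ)) ^ κ) /
            (freeChoices β K r N f x).card ≤
          C * Real.log x ^ (κ * (κ + 1) / 2) := by
  constructor
  · intro k A hA
    obtain ⟨c, hc, H⟩ := Pool.Agent.Q235.FE.free_avg β hβ ((4 : ℝ) ^ k) (one_le_pow₀ (by norm_num)) A hA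
    refine ⟨c, hc, fun x K r N f hx hrK hxr hN hf => ?_⟩
    obtain ⟨h1, h2⟩ := H x K r N f hx hrK hxr hN hf
    refine ⟨h1, fun t ht z hz => ?_⟩
    have hsmall : ∀ p ∈ primesBetween β x, ∀ j, ‖(p : ℂ) ^ (-(1 / 2 : ℂ) - z j)‖ ≤ 3 / 4 := by
      intro p hp j
      obtain ⟨g1, g2, g3, g4⟩ := Pool.Agent.Q235.FE.mem_between hβ hp
      rw [norm_cpow g1.pos]
      have hp1 : (1 : ℝ) ≤ p := by exact_mod_cast g1.one_lt.le
      have e : (-(1 / 2 : ℂ) - z j).re = -(1 / 2) - (z j).re := by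
        simp
      rw [e]
      calc (p : ℝ) ^ (-(1 / 2) - (z j).re) ≤ (p : ℝ) ^ (-(1 / 4) : ℝ) :=
            Real.rpow_le_rpow_of_exponent_le hp1 (by linarith [hz j])
        _ ≤ (5 : ℝ) ^ (-(1 / 4) : ℝ) :=
            Real.rpow_le_rpow_of_nonpos (by norm_num) (by exact_mod_cast g2) (by norm_num)
        _ ≤ 3 / 4 := by
          have h3 : ((5 : ℝ) ^ (-(1 / 4) : ℝ)) ^ (4 : ℕ) = 1 / 5 := by
            rw [← Real.rpow_natCast, ← Real.rpow_mul (by norm_num)]
            norm_num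
          have h4 : ((5 : ℝ) ^ (-(1 / 4) : ℝ)) ^ (4 : ℕ) ≤ (3 / 4 : ℝ) ^ (4 : ℕ) := by
            rw [h3]
            norm_num
          exact le_of_pow_le_pow_left₀ (by norm_num) (by norm_num) h4
    have hfac : ∀ p ∈ primesBetween β x, ∀ (j : Fin k) (e : ℂ), ‖e‖ ≤ 1 → ‖(1 - e * (p : ℂ) ^ (-(1 / 2 : ℂ) - z j))⁻¹‖ ≤ 4 := by
      intro p hp j e he
      have h3 := hsmall p hp j
      have h4 : ‖e * (p : ℂ) ^ (-(1 / 2 : ℂ) - z j)‖ ≤ 3 / 4 := by
        rw [norm_mul]
        have := norm_nonneg e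
        have := norm_nonneg ((p : ℂ) ^ (-(1 / 2 : ℂ) - z j))
        nlinarith
      have h5 : 1 / 4 ≤ ‖1 - e * (p : ℂ) ^ (-(1 / 2 : ℂ) - z j)‖ := by
        have := norm_sub_norm_le (1 : ℂ) (e * (p : ℂ) ^ (-(1 / 2 : ℂ) - z j))
        rw [norm_one] at this
        linarith
      rw [norm_inv]
      exact inv_le_of_inv_le₀ (by norm_num) (by linarith)
    have h3 := h2 t ht (fun p e => ∏ j, (1 - (e : ℂ) * (p : ℂ) ^ (-(1 / 2 : ℂ) - z j))⁻¹) (fun p hp => by
      have hb : ∀ e : ℤ, ‖(e : ℂ)‖ ≤ 1 → ‖∏ j, (1 - (e : ℂ) * (p : ℂ) ^ (-(1 / 2 : ℂ) - z j))⁻¹‖ ≤ (4 : ℝ) ^ k := by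
        intro e he
        rw [norm_prod]
        refine (prod_le_prod (fun _ _ => norm_nonneg _) fun j _ => hfac p hp j e he).trans (le_of_eq ?_)
        rw [prod_const, card_univ, Fintype.card_fin]
      exact ⟨hb 0 (by simp), hb 1 (by simp), hb (-1) (by simp)⟩)
    have e1 : ∑ S ∈ freeChoices β K r N f x, shifted β x z (t * (change β K N f S : ℕ)) =
        ∑ S ∈ freeChoices β K r N f x, ∏ p ∈ primesBetween β x,
          ∏ j, (1 - ((jacobiSym (t * (change β K N f S : ℕ)) p : ℤ) : ℂ) * (p : ℂ) ^ (-(1 / 2 : ℂ) - z j))⁻¹ := by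
      refine sum_congr rfl fun S _ => ?_
      unfold shifted
      exact prod_comm
    have e2 : ∏ p ∈ primesBetween β x, (arithmetic z p * zetas z p) =
        ∏ p ∈ primesBetween β x, Pool.Agent.Q235.FE.local0 p
          (fun e : ℤ => ∏ j, (1 - (e : ℂ) * (p : ℂ) ^ (-(1 / 2 : ℂ) - z j))⁻¹) := by
      refine prod_congr rfl fun p hp => ?_
      obtain ⟨g1, g2, g3, g4⟩ := Pool.Agent.Q235.FE.mem_between hβ hp
      have hne : (∏ i : Fin k, ∏ j with i ≤ j, (1 - (p : ℂ) ^ (-1 - z i - z j))) ≠ 0 := by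
        refine prod_ne_zero_iff.2 fun i _ => prod_ne_zero_iff.2 fun j _ h => ?_
        have h4 : ‖(p : ℂ) ^ (-1 - z i - z j)‖ = 1 := by
          rw [← sub_eq_zero.1 h, norm_one]
        rw [norm_cpow g1.pos] at h4
        have e : (-1 - z i - z j).re = -1 - (z i).re - (z j).re := by simp
        rw [e] at h4
        have h5 : (p : ℝ) ^ (-1 - (z i).re - (z j).re) < 1 :=
          Real.rpow_lt_one_of_one_lt_of_neg (by exact_mod_cast g1.one_lt) (by linarith [hz i, hz j])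
        linarith
      unfold arithmetic zetas Pool.Agent.Q235.FE.local0
      have h6 : ∏ i : Fin k, ∏ j with i ≤ j, (1 - (p : ℂ) ^ (-1 - z i - z j))⁻¹ =
          (∏ i : Fin k, ∏ j with i ≤ j, (1 - (p : ℂ) ^ (-1 - z i - z j)))⁻¹ := by
        rw [← prod_inv_distrib]
        exact prod_congr rfl fun i _ => prod_inv_distrib _
      rw [h6]
      have h7 : ∏ j : Fin k, (1 - ((0 : ℤ) : ℂ) * (p : ℂ) ^ (-(1 / 2 : ℂ) - z j))⁻¹ = 1 := by
        refine prod_eq_one fun j _ => ?_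
        simp
      have h8 : ∏ j : Fin k, (1 - ((1 : ℤ) : ℂ) * (p : ℂ) ^ (-(1 / 2 : ℂ) - z j))⁻¹ =
          ∏ j : Fin k, (1 - (p : ℂ) ^ (-(1 / 2 : ℂ) - z j))⁻¹ := by
        refine prod_congr rfl fun j _ => ?_
        rw [Int.cast_one, one_mul]
      have h9 : ∏ j : Fin k, (1 - ((-1 : ℤ) : ℂ) * (p : ℂ) ^ (-(1 / 2 : ℂ) - z j))⁻¹ =
          ∏ j : Fin k, (1 + (p : ℂ) ^ (-(1 / 2 : ℂ) - z j))⁻¹ := by
        refine prod_congr rfl fun j _ => ?_
        rw [Int.cast_neg, Int.cast_one, neg_one_mul, sub_neg_eq_add]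
      beta_reduce
      rw [h7, h8, h9]
      have hq : ∀ a u w : ℂ, a ≠ 0 → a * u * w⁻¹ * a⁻¹ = u / w := by
        intro a u w ha
        rw [div_eq_mul_inv]
        calc a * u * w⁻¹ * a⁻¹ = (a * a⁻¹) * (u * w⁻¹) := by ring
          _ = _ := by rw [mul_inv_cancel₀ ha, one_mul]
      exact hq _ _ _ hne
    rw [e1, e2]
    exact h3
  · intro κ
    obtain ⟨c, C, hc, hC, H⟩ := Pool.Agent.Q235.FE.real_moments β hβ κ
    obtain ⟨C₀, hC₀, H₀⟩ := Pool.Agent.Q235.FE.sum_between hβ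
    obtain ⟨lam, hlam⟩ : ∃ lam, lam = κ * (κ + 1) / 2 := ⟨_, rfl⟩
    refine ⟨c, C * Real.exp (|lam| * C₀), hc, by positivity, fun x K r N f hx hrK hxr hN hf t ht => ?_⟩
    obtain ⟨h0, h1, h2⟩ := H x K r N f (by omega) hrK hxr hN hf t ht (fun _ => 1) (fun _ => 0) (fun _ => by norm_num)
      (fun _ => Or.inl rfl)
    have hx1 : (1 : ℝ) < x := by exact_mod_cast (by omega : 1 < x)
    have hlx : 0 < Real.log x := Real.log_pos hx1
    have e1 : ∑ p ∈ primesBetween β x, (κ * (κ + 1) * (1 : ℝ) ^ 2 / 2 - κ * 0) / (p : ℝ) =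
        lam * ∑ p ∈ primesBetween β x, 1 / (p : ℝ) := by
      rw [mul_sum, hlam]
      refine sum_congr rfl fun p _ => ?_
      ring
    have e2 : ∀ S, ∏ p ∈ primesBetween β x,
          (1 - 1 * ((jacobiSym (t * (change β K N f S : ℕ)) p : ℝ) / Real.sqrt p) +
            0 * ((jacobiSym (t * (change β K N f S : ℕ)) p : ℝ) / Real.sqrt p) ^ 2) ^ (-κ) =
        central β x (t * (change β K N f S : ℕ)) ^ κ := by
      intro S
      unfold central
      have hpos : ∀ p ∈ primesBetween β x, 0 < 1 - (jacobiSym (t * (change β K N f S : ℕ)) p : ℝ) / Real.sqrt p := by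
        intro p hp
        obtain ⟨g1, g2, g3, g4⟩ := Pool.Agent.Q235.FE.mem_between hβ hp
        obtain ⟨k1, k2, k3⟩ := Pool.Agent.Q235.FE.inv_sqrt g2
        have h3 : (jacobiSym (t * (change β K N f S : ℕ)) p : ℝ) ≤ 1 := by
          rcases jacobiSym.trichotomy (t * (change β K N f S : ℕ)) p with h | h | h <;> rw [h] <;> norm_num
        have h4 : (jacobiSym (t * (change β K N f S : ℕ)) p : ℝ) / Real.sqrt p ≤ 1 / Real.sqrt p :=
          div_le_div_of_nonneg_right h3 (Real.sqrt_nonneg _)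
        linarith
      rw [← Real.finsetProd_rpow _ _ (fun p hp => (inv_pos.2 (hpos p hp)).le)]
      refine prod_congr rfl fun p hp => ?_
      rw [one_mul, zero_mul, add_zero, Real.rpow_neg (hpos p hp).le, Real.inv_rpow (hpos p hp).le]
    rw [e1, sum_congr rfl fun S _ => e2 S] at h1
    rw [e1, sum_congr rfl fun S _ => e2 S] at h2
    have h3 := abs_le.1 (H₀ x hx)
    obtain ⟨D, hD⟩ : ∃ D, D = ∑ p ∈ primesBetween β x, 1 / (p : ℝ) := ⟨_, rfl⟩
    rw [← hD] at h1 h2 h3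
    have h4 : |lam * D - lam * Real.log (Real.log x)| ≤ |lam| * C₀ := by
      rw [← mul_sub, abs_mul]
      exact mul_le_mul_of_nonneg_left (abs_le.2 h3) (abs_nonneg _)
    have h5 := abs_le.1 h4
    have e3 : Real.log x ^ lam = Real.exp (lam * Real.log (Real.log x)) := by
      rw [Real.rpow_def_of_pos hlx, mul_comm]
    rw [← hlam, e3]
    constructor
    · refine le_trans ?_ h1
      rw [mul_inv, ← Real.exp_neg, mul_assoc, ← Real.exp_add]
      apply mul_le_mul_of_nonneg_left _ (inv_pos.2 hC).le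
      exact Real.exp_le_exp.2 (by linarith [h5.1])
    · refine h2.trans ?_
      rw [mul_assoc, ← Real.exp_add]
      apply mul_le_mul_of_nonneg_left _ hC.le
      exact Real.exp_le_exp.2 (by linarith [h5.2])

end Pool.Agent.Results.MP_ea46f5_nt.FewDigitMoments
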