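import Pool.Agent.Q28.BP.Lsi
import Pool.Agent.Q28.BP.TwoD
import Pool.Agent.Q235.FE.Tw

/-!
# The typical size of the truncated central values of `L(s, χ_D)` over numbers with few changed digits

For an integer `D` and complex numbers `u_p` in the unit disc let

  `P_x(D) = ∏_{5 ≤ p ≤ x} |1 - u_p χ_D(p) p^{-1/2}|⁻¹`.

For `u = 1` this is the Euler product of `L(1/2, χ_D)`, truncated at `x` (without the primes `2` and `3`), for
`u_p = p^{-it}` the one of `|L(1/2 + it, χ_D)|`, and for `u_p = ψ(p) p^{-it}` the one of `|L(1/2 + it, ψ χ_D)|`, `ψ` any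
character of Dirichlet.

Let `N₀` be an ARBITRARY integer with at most `K` digits in base `β`, and let `m` arise from `N₀` by changing `r ≤ K / 2` of
its digits, to prescribed digits different from the old ones. We show: for all but a proportion `η` of the choices of the
`r` positions, `D = m` and `D = -m` satisfy, for ALL `x` with `X₀ ≤ x ≤ exp (c √r)`

1. `log P_x(D) = ∑_{p ≤ x} Re(u_p²)/(2p) + O((log log x)^(5/6))`, where `X₀` and the constant do not depend on `u`;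
2. for `u = 1`, the central value itself, `(log x)^(1/2 - ε) ≤ P_x(D) ≤ (log x)^(1/2 + ε)`.

So the moments, of order `(log x)^{k(k+1)/2}` for these families (`FewDigitMoments`) and conjecturally for the central
values, come from rare `m`: the typical value is of the order `(log x)^{1/2}`. Here `c` depends only on `β`.
-/

set_option autoImplicit false

namespace Pool.Agent.Results.MP_ea46f5_nt.FewDigitValues

open Pool.Agent.Q235.FD (digit)
open Pool.Agent.Q235.FE (bad bad_mono)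
open Filter Topology
open Finset

/-- The primes `5 ≤ p ≤ x`. -/
def primesUpTo (x : ℕ) : Finset ℕ := (range (x + 1)).filter fun p => p.Prime ∧ 5 ≤ p

/-- The truncated value `P_x(D)`; the values of the character are written as symbols of Jacobi. -/
noncomputable def value (u : ℕ → ℂ) (D : ℤ) (x : ℕ) : ℝ :=
  ∏ p ∈ primesUpTo x, ‖1 - u p * (((jacobiSym D p : ℝ) / Real.sqrt p : ℝ) : ℂ)‖⁻¹

/-- `∑_{5 ≤ p ≤ x} Re(u_p²)/(2p)` -/
noncomputable def centre (u : ℕ → ℂ) (x : ℕ) : ℝ := ∑ p ∈ primesUpTo x, (u p ^ 2).re / (2 * p)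

lemma eig (u : ℂ) (hu : ‖u‖ ≤ 1) : Pool.Agent.Q28.BP.EigLe (u • (1 : Matrix (Fin 1) (Fin 1) ℂ)) := by
  refine ⟨fun _ => u, fun _ => hu, fun z => ?_, fun k => ?_⟩
  · simp [Matrix.det_unique]
    ring
  · rw [smul_pow, one_pow, Matrix.trace_smul, Matrix.trace_one]
    simp

lemma det_eq (u z : ℂ) : (1 - z • (u • (1 : Matrix (Fin 1) (Fin 1) ℂ))).det = 1 - u * z := by
  simp [Matrix.det_unique]
  ring

theorem set_eq (x : ℕ) : primesUpTo x = (range (x + 1)).filter (fun p => p.Prime ∧ p ∉ range 5) := by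
  unfold primesUpTo
  refine filter_congr fun p _ => ?_
  rw [mem_range, not_lt]

lemma mem_up {x p : ℕ} (hp : p ∈ primesUpTo x) : p.Prime ∧ 5 ≤ p ∧ p ≤ x := by
  unfold primesUpTo at hp
  obtain ⟨h1, h2, h3⟩ := mem_filter.1 hp
  exact ⟨h2, h3, by have := mem_range.1 h1; omega⟩

lemma factor_pos {u : ℂ} (hu : ‖u‖ ≤ 1) (D : ℤ) {p : ℕ} (h5 : 5 ≤ p) :
    0 < ‖1 - u * (((jacobiSym D p : ℝ) / Real.sqrt p : ℝ) : ℂ)‖ := by
  rw [norm_pos_iff, sub_ne_zero]
  intro h
  have h1 : ‖u * (((jacobiSym D p : ℝ) / Real.sqrt p : ℝ) : ℂ)‖ = 1 := by rw [← h, norm_one]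
  have hp : (5 : ℝ) ≤ p := by exact_mod_cast h5
  have hs : 1 < Real.sqrt p := by
    rw [show (1 : ℝ) = Real.sqrt 1 by simp]
    exact Real.sqrt_lt_sqrt (by norm_num) (by linarith)
  have h2 : |(jacobiSym D p : ℝ)| ≤ 1 := by
    rcases jacobiSym.trichotomy D p with h | h | h <;> rw [h] <;> norm_num
  rw [norm_mul, Complex.norm_real, Real.norm_eq_abs, abs_div, abs_of_pos (by linarith : 0 < Real.sqrt p)] at h1
  have h3 : |(jacobiSym D p : ℝ)| / Real.sqrt p < 1 := by
    rw [div_lt_one (by linarith)]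
    linarith
  have h4 : 0 ≤ |(jacobiSym D p : ℝ)| / Real.sqrt p := by positivity
  nlinarith [norm_nonneg u]

theorem log_value {u : ℕ → ℂ} (hu : ∀ p, ‖u p‖ ≤ 1) (D : ℤ) (x : ℕ) : 0 < value u D x ∧
    Real.log (value u D x) = -∑ p ∈ (range (x + 1)).filter Nat.Prime,
      Pool.Agent.Q28.BP.lq (range 5) (fun p => u p • (1 : Matrix (Fin 1) (Fin 1) ℂ)) D p ∧
      centre u x = 1 / 2 * ∑ p ∈ (range (x + 1)).filter Nat.Prime,
        Pool.Agent.Q28.BP.ta (range 5) (fun p => u p • (1 : Matrix (Fin 1) (Fin 1) ℂ)) p / p := by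
  refine ⟨?_, ?_, ?_⟩
  · unfold value
    exact prod_pos fun p hp => inv_pos.2 (factor_pos (hu p) D (mem_up hp).2.1)
  · rw [← Pool.Agent.Q28.BP.log_prod_lq (fun p _ _ => eig (u p) (hu p)) (fun p hp => mem_range.2 (by omega)) D x,
      ← Real.log_inv, ← prod_inv_distrib]
    congr 1
    unfold value
    rw [← set_eq]
    refine prod_congr rfl fun p _ => ?_
    rw [det_eq]
  · unfold centre
    rw [set_eq, mul_sum, sum_filter, sum_filter]
    refine sum_congr rfl fun p _ => ?_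
    unfold Pool.Agent.Q28.BP.ta
    by_cases hp : p.Prime
    · by_cases hpS : p ∈ range 5
      · rw [if_pos hp, if_pos hpS, if_neg fun h => h.2 hpS]
        ring
      · rw [if_pos hp, if_neg hpS, if_pos ⟨hp, hpS⟩]
        have e : (((u p) • (1 : Matrix (Fin 1) (Fin 1) ℂ)) ^ 2).trace.re = (u p ^ 2).re := by
          rw [smul_pow, one_pow, Matrix.trace_smul, Matrix.trace_one]
          simp
        rw [e]
        field_simp
    · rw [if_neg hp, if_neg fun h => hp h.1]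

/-- **Typical truncated values over numbers with few changed digits.** Let `β ≥ 2` be a base. There is `c > 0` such that:

1. for every `η > 0` there is `X₀` such that for all complex numbers `u_p` in the unit disc, all integers `N₀` with at most
   `K` digits in base `β`, all `r ≤ K / 2` and all prescribed new digits `g j` (different from the digits of `N₀`) the
   following holds for all choices of `r` positions except for a proportion of at most `η`: for the number `m` obtained,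
   all `x ≥ X₀` with `log x ≤ c √r` and `D = m` as well as `D = -m`
   `|log P_x(D) - ∑_{5 ≤ p ≤ x} Re(u_p²)/(2p)| ≤ 3 (log log x)^(5/6)`;
2. for `u = 1` and all `ε, η > 0` there is `X₀` such that in the same situation
   `(log x)^(1/2 - ε) ≤ P_x(D) ≤ (log x)^(1/2 + ε)`. -/
theorem result (β : ℕ) (hβ : 2 ≤ β) : ∃ c : ℝ, 0 < c ∧
    (∀ η : ℝ, 0 < η → ∃ X₀ : ℕ, 16 ≤ X₀ ∧ ∀ u : ℕ → ℂ, (∀ p, ‖u p‖ ≤ 1) →
      ∀ (K r N₀ : ℕ) (g : ℕ → ℕ), 2 * r ≤ K → N₀ < β ^ K → (∀ j, g j < β ∧ g j ≠ digit β j N₀) →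
        (bad β K r N₀ g (fun m => ∀ x : ℕ, X₀ ≤ x → Real.log x ≤ c * Real.sqrt r →
          ∀ D : ℤ, (D = m ∨ D = -m) →
            |Real.log (value u D x) - centre u x| ≤ 3 * Real.log (Real.log x) ^ (5 / 6 : ℝ)) : ℝ) ≤
          η * (K.choose r : ℝ)) ∧
    ∀ ε η : ℝ, 0 < ε → 0 < η → ∃ X₀ : ℕ,
      ∀ (K r N₀ : ℕ) (g : ℕ → ℕ), 2 * r ≤ K → N₀ < β ^ K → (∀ j, g j < β ∧ g j ≠ digit β j N₀) →
        (bad β K r N₀ g (fun m => ∀ x : ℕ, X₀ ≤ x → Real.log x ≤ c * Real.sqrt r →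
          ∀ D : ℤ, (D = m ∨ D = -m) →
            Real.log x ^ (1 / 2 - ε) ≤ value (fun _ => 1) D x ∧
            value (fun _ => 1) D x ≤ Real.log x ^ (1 / 2 + ε)) : ℝ) ≤
          η * (K.choose r : ℝ) := by
  obtain ⟨c, hc, HM⟩ := Pool.Agent.Q235.FE.matrix_twists β hβ
  have main : ∀ η : ℝ, 0 < η → ∃ X₀ : ℕ, 16 ≤ X₀ ∧ ∀ u : ℕ → ℂ, (∀ p, ‖u p‖ ≤ 1) →
      ∀ (K r N₀ : ℕ) (g : ℕ → ℕ), 2 * r ≤ K → N₀ < β ^ K → (∀ j, g j < β ∧ g j ≠ digit β j N₀) →
        (bad β K r N₀ g (fun m => ∀ x : ℕ, X₀ ≤ x → Real.log x ≤ c * Real.sqrt r →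
          ∀ D : ℤ, (D = m ∨ D = -m) →
            |Real.log (value u D x) - centre u x| ≤ 3 * Real.log (Real.log x) ^ (5 / 6 : ℝ)) : ℝ) ≤
          η * (K.choose r : ℝ) := by
    intro η hη
    obtain ⟨X₀, hX₀, H⟩ := HM 1 η hη
    refine ⟨X₀, hX₀, fun u hu K r N₀ g hr hN hg => ?_⟩
    refine le_trans ?_ (H (range 5) (fun p => u p • (1 : Matrix (Fin 1) (Fin 1) ℂ)) (fun p _ _ => eig (u p) (hu p))
      (fun p hp => mem_range.2 (by omega)) K r N₀ g hr hN hg)
    apply Nat.cast_le.2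
    apply bad_mono
    intro m hm x hx hxr D hD
    obtain ⟨t, ht, rfl⟩ : ∃ t : ℤ, (t = 1 ∨ t = -1) ∧ D = t * (m : ℤ) := by
      rcases hD with rfl | rfl
      · exact ⟨1, Or.inl rfl, (one_mul _).symm⟩
      · exact ⟨-1, Or.inr rfl, (neg_one_mul _).symm⟩
    have h1 := hm x hx hxr t ht
    obtain ⟨h2, h3, h4⟩ := log_value hu (t * (m : ℤ)) x
    rw [h3, h4, ← abs_neg]
    refine le_trans (le_of_eq ?_) h1
    congr 1
    ring
  obtain ⟨C₀, hC₀, hC₀'⟩ := Pool.Agent.Q28.BP.sum_inv_loglog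
  refine ⟨c, hc, main, ?_⟩
  intro ε η hε hη
  obtain ⟨X₀, hX₀, H⟩ := main η hη
  have hL : Tendsto (fun x : ℕ => Real.log (Real.log (x : ℝ)) ^ (1 / 6 : ℝ)) atTop atTop :=
    (tendsto_rpow_atTop (by norm_num)).comp Pool.Agent.Q28.BP.tendsto_loglog
  obtain ⟨X₁, hX₁⟩ := eventually_atTop.1 ((hL.eventually_ge_atTop (1 / (ε / 6))).and
    (Pool.Agent.Q28.BP.tendsto_loglog.eventually_ge_atTop ((C₀ + ∑ p ∈ range 5, 1 / (p : ℝ)) / (ε / 2))))
  refine ⟨max X₀ X₁, fun K r N₀ g hr hNK hg => ?_⟩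
  refine le_trans ?_ (H (fun _ => 1) (fun _ => by simp) K r N₀ g hr hNK hg)
  apply Nat.cast_le.2
  apply bad_mono
  intro m hm x hx hxr D hD
  have hx0 := (le_max_left _ _).trans hx
  have h2 := hm x hx0 hxr D hD
  obtain ⟨h1, -, -⟩ := log_value (u := fun _ => 1) (fun _ => by simp) D x
  obtain ⟨k1, k2⟩ := hX₁ x ((le_max_right _ _).trans hx)
  have hx16 : 16 ≤ x := hX₀.trans hx0
  have hl1 := Pool.Agent.Q28.BP.loglog_ge_one hx16
  have h3 := Pool.Agent.Q28.BP.small_pow (show (0 : ℝ) < ε / 6 by positivity) hl1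
    (by norm_num : (1 / 6 : ℝ) + 5 / 6 = 1) k1
  rw [div_le_iff₀ (by positivity)] at k2
  have h5 := hC₀' x (by omega)
  have hcen : |centre (fun _ => 1) x - 1 / 2 * Real.log (Real.log x)| ≤ C₀ + ∑ p ∈ range 5, 1 / (p : ℝ) := by
    have e1 : centre (fun _ => 1) x = 1 / 2 * ∑ p ∈ primesUpTo x, 1 / (p : ℝ) := by
      unfold centre
      rw [mul_sum]
      refine sum_congr rfl fun p _ => ?_
      rw [one_pow, Complex.one_re]
      ring
    have e2 : ∑ p ∈ (range (x + 1)).filter Nat.Prime, 1 / (p : ℝ) = ∑ p ∈ primesUpTo x, 1 / (p : ℝ) +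
        ∑ p ∈ (range (x + 1)).filter (fun p => p.Prime ∧ p ∈ range 5), 1 / (p : ℝ) := by
      rw [set_eq, sum_filter, sum_filter, sum_filter, ← sum_add_distrib]
      refine sum_congr rfl fun p _ => ?_
      by_cases hp : p.Prime <;> by_cases hpS : p ∈ range 5 <;> simp only [hp, hpS] <;> simp
    have h6 : ∑ p ∈ (range (x + 1)).filter (fun p => p.Prime ∧ p ∈ range 5), 1 / (p : ℝ) ≤
        ∑ p ∈ range 5, 1 / (p : ℝ) :=
      sum_le_sum_of_subset_of_nonneg (fun p hp => (mem_filter.1 hp).2.2) fun _ _ _ => by positivity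
    have h7 : 0 ≤ ∑ p ∈ (range (x + 1)).filter (fun p => p.Prime ∧ p ∈ range 5), 1 / (p : ℝ) :=
      sum_nonneg fun _ _ => by positivity
    rw [e2] at h5
    rw [e1]
    rw [abs_le] at h5 ⊢
    constructor <;> linarith [h5.1, h5.2]
  have h6 : |Real.log (value (fun _ => 1) D x) - 1 / 2 * Real.log (Real.log x)| ≤ ε * Real.log (Real.log x) := by
    have e : Real.log (value (fun _ => 1) D x) - 1 / 2 * Real.log (Real.log x) =
        (Real.log (value (fun _ => 1) D x) - centre (fun _ => 1) x) +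
        (centre (fun _ => 1) x - 1 / 2 * Real.log (Real.log x)) := by ring
    rw [e]
    refine (abs_add_le _ _).trans ?_
    linarith
  exact Pool.Agent.Q28.BP.pow_bounds h1 (by omega) rfl h6

end Pool.Agent.Results.MP_ea46f5_nt.FewDigitValues
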