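import Pool.Agent.Q77.FL.Avg

/-!
# The moments and the distribution of the truncated central values `L(1/2, χ_D)`, `D = ⌊w n ^ c + P(n)⌋`

Let `c > 1` be NOT an integer, `w ≠ 0` real and `P` a real polynomial of degree less than `c`, for example
`D = ⌊n ^ (3/2) + a n + b⌋`. (For integers `c` these would be the values of polynomials, which need not be equidistributed
modulo any number.) We average over the numbers `D_n = ⌊w n ^ c + P(n)⌋`, `n ≤ x`, which are not divisible by the square of any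
prime `5 ≤ p ≤ y` (at least a quarter of all), and consider the Euler products
`L_y(s, χ_D) = ∏ (1 - χ_D(p) p^{-s})⁻¹` over the primes `5 ≤ p ≤ y`.

The conjecture of Conrey, Farmer, Keating, Rubinstein and Snaith predicts the moments of `L(1/2, χ_d)` over the fundamental
discriminants from `A_k(z) ∏_{i ≤ j} ζ(1 + z_i + z_j)`. We show for these thin families, for `y ≤ κ log x`, uniformly in all
polynomials `P`:

1. for every `k` the average of `∏_j L_y(1/2 + z_j, χ_D)` is the Euler product of `A_k(z) ∏_{i ≤ j} ζ(1 + z_i + z_j)`,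
   restricted to the same primes, up to an error of at most `3^{-A y}`, uniformly for all `z` with `Re z_j ≥ -1/4`;
2. for ALL real `k`, positive or negative, the average of `L_y(1/2, χ_D)^k` has the exact order `(log y)^{k(k+1)/2}`;
3. for all real `ρ ≥ 1/2` the proportion of the `D` with `L_y(1/2, χ_D) ≥ (log y)^ρ` is `(log y)^{-(ρ - 1/2)² / 2 + o(1)}`, and
   for `ρ ≤ 1/2` the proportion of the `D` with `L_y(1/2, χ_D) ≤ (log y)^ρ` is `(log y)^{-(ρ - 1/2)² / 2 + o(1)}`.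
-/

set_option autoImplicit false

namespace Pool.Agent.Results.MP_ea46f5_nt.MomentsNearPowers

open Finset Polynomial
open Pool.Agent.Q77.FL (member freeIdx FreeD HasAvg near_avg real_moments_abs ld_abs)
open Pool.Agent.Q235.FE (primesBetween proportion)

/-- `∏_j L_y(1/2 + z_j, χ_D)`, the Euler products over the primes `5 ≤ p ≤ y`; the values of the characters are written as
symbols of Jacobi. -/
noncomputable def shifted {k : ℕ} (y : ℕ) (z : Fin k → ℂ) (D : ℤ) : ℂ :=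
  ∏ j, ∏ p ∈ primesBetween 2 y, (1 - (jacobiSym D p : ℂ) * (p : ℂ) ^ (-(1 / 2 : ℂ) - z j))⁻¹

/-- `L_y(1/2, χ_D)` -/
noncomputable def central (y : ℕ) (D : ℤ) : ℝ :=
  ∏ p ∈ primesBetween 2 y, (1 - (jacobiSym D p : ℝ) / Real.sqrt p)⁻¹

/-- The Euler factor of `A_k(z)` at `p`. -/
noncomputable def arithmetic {k : ℕ} (z : Fin k → ℂ) (p : ℕ) : ℂ :=
  (∏ i, ∏ j with i ≤ j, (1 - (p : ℂ) ^ (-1 - z i - z j))) *
    (1 / 2 * (∏ j, (1 - (p : ℂ) ^ (-(1 / 2 : ℂ) - z j))⁻¹ + ∏ j, (1 + (p : ℂ) ^ (-(1 / 2 : ℂ) - z j))⁻¹) + 1 / p) *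
    (1 + 1 / (p : ℂ))⁻¹

/-- The Euler factor of `∏_{i ≤ j} ζ(1 + z_i + z_j)` at `p`. -/
noncomputable def zetas {k : ℕ} (z : Fin k → ℂ) (p : ℕ) : ℂ :=
  ∏ i, ∏ j with i ≤ j, (1 - (p : ℂ) ^ (-1 - z i - z j))⁻¹

/-- The average of `f(D_n)` over the `n ≤ x` for which `D_n` is not divisible by the square of a prime `5 ≤ p ≤ y`. -/
noncomputable def average (c w : ℝ) (P : ℝ[X]) (x y : ℕ) (f : ℤ → ℝ) : ℝ :=
  (∑ n ∈ freeIdx c w P x y, f (member c w P n)) / (freeIdx c w P x y).card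

/-- The same for complex values. -/
noncomputable def averageC (c w : ℝ) (P : ℝ[X]) (x y : ℕ) (f : ℤ → ℂ) : ℂ :=
  (∑ n ∈ freeIdx c w P x y, f (member c w P n)) / (freeIdx c w P x y).card

/-- The proportion of these `n` for which `D_n` has the property `Q`. -/
noncomputable def share (c w : ℝ) (P : ℝ[X]) (x y : ℕ) (Q : ℤ → Prop) : ℝ :=
  proportion (freeIdx c w P x y) fun n => Q (member c w P n)

lemma norm_cpow {p : ℕ} (hp : 0 < p) (w : ℂ) : ‖(p : ℂ) ^ w‖ = (p : ℝ) ^ w.re := by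
  rw [Complex.norm_natCast_cpow_of_pos hp]

lemma part_one {c w : ℝ} (hc : 1 < c) (hn : ∀ m : ℕ, c ≠ m) (hw : w ≠ 0) (k : ℕ) (A : ℝ) (hA : 0 ≤ A) :
    ∃ κ : ℝ, 0 < κ ∧ ∃ x₀ : ℕ, ∀ x : ℕ, x₀ ≤ x → ∀ P : ℝ[X], (P.natDegree : ℝ) < c → ∀ y : ℕ, (y : ℝ) ≤ κ * Real.log x →
      (x : ℝ) / 4 ≤ (freeIdx c w P x y).card ∧ ∀ z : Fin k → ℂ, (∀ j, -(1 / 4) ≤ (z j).re) →
        ‖averageC c w P x y (shifted y z) - ∏ p ∈ primesBetween 2 y, (arithmetic z p * zetas z p)‖ ≤ (3 : ℝ) ^ (-(A * y)) := by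
    obtain ⟨κ, hκ, x₀, H⟩ := near_avg hc hn hw ((4 : ℝ) ^ k) A (one_le_pow₀ (by norm_num)) hA
    refine ⟨κ, hκ, x₀, fun x hx P hP y hy => ?_⟩
    obtain ⟨h1, h2⟩ := H x hx P hP y hy
    refine ⟨h1, fun z hz => ?_⟩
    have hsmall : ∀ p ∈ primesBetween 2 y, ∀ j, ‖(p : ℂ) ^ (-(1 / 2 : ℂ) - z j)‖ ≤ 3 / 4 := by
      intro p hp j
      obtain ⟨g1, g2, g3, g4⟩ := Pool.Agent.Q235.FE.mem_between le_rfl hp
      rw [norm_cpow g1.pos]
      have hp1 : (1 : ℝ) ≤ p := by exact_mod_cast g1.one_lt.le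
      have e : (-(1 / 2 : ℂ) - z j).re = -(1 / 2) - (z j).re := by
        simp
      rw [e]
      calc (p : ℝ) ^ (-(1 / 2) - (z j).re) ≤ (p : ℝ) ^ (-(1 / 4) : ℝ) :=
            Real.rpow_le_rpow_of_exponent_le hp1 (by linarith [hz j])
        _ ≤ (5 : ℝ) ^ (-(1 / 4) : ℝ) :=
            Real.rpow_le_rpow_of_nonpos (by norm_num) (by exact_mod_cast g2) (by norm_num)
        _ ≤ 3 / 4 := by
          have h3 : ((5 : ℝ) ^ (-(1 / 4) : ℝ)) ^ (4 : ℕ) = 1 / 5 := by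
            rw [← Real.rpow_natCast, ← Real.rpow_mul (by norm_num)]
            norm_num
          have h4 : ((5 : ℝ) ^ (-(1 / 4) : ℝ)) ^ (4 : ℕ) ≤ (3 / 4 : ℝ) ^ (4 : ℕ) := by
            rw [h3]
            norm_num
          exact le_of_pow_le_pow_left₀ (by norm_num) (by norm_num) h4
    have hfac : ∀ p ∈ primesBetween 2 y, ∀ (j : Fin k) (e : ℂ), ‖e‖ ≤ 1 → ‖(1 - e * (p : ℂ) ^ (-(1 / 2 : ℂ) - z j))⁻¹‖ ≤ 4 := by
      intro p hp j e he
      have h3 := hsmall p hp j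
      have h4 : ‖e * (p : ℂ) ^ (-(1 / 2 : ℂ) - z j)‖ ≤ 3 / 4 := by
        rw [norm_mul]
        have := norm_nonneg e
        have := norm_nonneg ((p : ℂ) ^ (-(1 / 2 : ℂ) - z j))
        nlinarith
      have h5 : 1 / 4 ≤ ‖1 - e * (p : ℂ) ^ (-(1 / 2 : ℂ) - z j)‖ := by
        have := norm_sub_norm_le (1 : ℂ) (e * (p : ℂ) ^ (-(1 / 2 : ℂ) - z j))
        rw [norm_one] at this
        linarith
      rw [norm_inv]
      exact inv_le_of_inv_le₀ (by norm_num) (by linarith)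
    have h3 := h2.2 (fun p e => ∏ j, (1 - (e : ℂ) * (p : ℂ) ^ (-(1 / 2 : ℂ) - z j))⁻¹) (fun p hp => by
      have hb : ∀ e : ℤ, ‖(e : ℂ)‖ ≤ 1 → ‖∏ j, (1 - (e : ℂ) * (p : ℂ) ^ (-(1 / 2 : ℂ) - z j))⁻¹‖ ≤ (4 : ℝ) ^ k := by
        intro e he
        rw [norm_prod]
        refine (prod_le_prod (fun _ _ => norm_nonneg _) fun j _ => hfac p hp j e he).trans (le_of_eq ?_)
        rw [prod_const, card_univ, Fintype.card_fin]
      exact ⟨hb 0 (by simp), hb 1 (by simp), hb (-1) (by simp)⟩)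
    have e1 : ∑ S ∈ freeIdx c w P x y, shifted y z (member c w P S) =
        ∑ S ∈ freeIdx c w P x y, ∏ p ∈ primesBetween 2 y,
          ∏ j, (1 - ((jacobiSym (member c w P S) p : ℤ) : ℂ) * (p : ℂ) ^ (-(1 / 2 : ℂ) - z j))⁻¹ := by
      refine sum_congr rfl fun S _ => ?_
      unfold shifted
      exact prod_comm
    have e2 : ∏ p ∈ primesBetween 2 y, (arithmetic z p * zetas z p) =
        ∏ p ∈ primesBetween 2 y, Pool.Agent.Q235.FE.local0 p
          (fun e : ℤ => ∏ j, (1 - (e : ℂ) * (p : ℂ) ^ (-(1 / 2 : ℂ) - z j))⁻¹) := by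
      refine prod_congr rfl fun p hp => ?_
      obtain ⟨g1, g2, g3, g4⟩ := Pool.Agent.Q235.FE.mem_between le_rfl hp
      have hne : (∏ i : Fin k, ∏ j with i ≤ j, (1 - (p : ℂ) ^ (-1 - z i - z j))) ≠ 0 := by
        refine prod_ne_zero_iff.2 fun i _ => prod_ne_zero_iff.2 fun j _ h => ?_
        have h4 : ‖(p : ℂ) ^ (-1 - z i - z j)‖ = 1 := by
          rw [← sub_eq_zero.1 h, norm_one]
        rw [norm_cpow g1.pos] at h4
        have e : (-1 - z i - z j).re = -1 - (z i).re - (z j).re := by simp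
        rw [e] at h4
        have h5 : (p : ℝ) ^ (-1 - (z i).re - (z j).re) < 1 :=
          Real.rpow_lt_one_of_one_lt_of_neg (by exact_mod_cast g1.one_lt) (by linarith [hz i, hz j])
        linarith
      unfold arithmetic zetas Pool.Agent.Q235.FE.local0
      have h6 : ∏ i : Fin k, ∏ j with i ≤ j, (1 - (p : ℂ) ^ (-1 - z i - z j))⁻¹ =
          (∏ i : Fin k, ∏ j with i ≤ j, (1 - (p : ℂ) ^ (-1 - z i - z j)))⁻¹ := by
        rw [← prod_inv_distrib]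
        exact prod_congr rfl fun i _ => prod_inv_distrib _
      rw [h6]
      have h7 : ∏ j : Fin k, (1 - ((0 : ℤ) : ℂ) * (p : ℂ) ^ (-(1 / 2 : ℂ) - z j))⁻¹ = 1 := by
        refine prod_eq_one fun j _ => ?_
        simp
      have h8 : ∏ j : Fin k, (1 - ((1 : ℤ) : ℂ) * (p : ℂ) ^ (-(1 / 2 : ℂ) - z j))⁻¹ =
          ∏ j : Fin k, (1 - (p : ℂ) ^ (-(1 / 2 : ℂ) - z j))⁻¹ := by
        refine prod_congr rfl fun j _ => ?_
        rw [Int.cast_one, one_mul]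
      have h9 : ∏ j : Fin k, (1 - ((-1 : ℤ) : ℂ) * (p : ℂ) ^ (-(1 / 2 : ℂ) - z j))⁻¹ =
          ∏ j : Fin k, (1 + (p : ℂ) ^ (-(1 / 2 : ℂ) - z j))⁻¹ := by
        refine prod_congr rfl fun j _ => ?_
        rw [Int.cast_neg, Int.cast_one, neg_one_mul, sub_neg_eq_add]
      beta_reduce
      rw [h7, h8, h9]
      have hq : ∀ a u w : ℂ, a ≠ 0 → a * u * w⁻¹ * a⁻¹ = u / w := by
        intro a u w ha
        rw [div_eq_mul_inv]
        calc a * u * w⁻¹ * a⁻¹ = (a * a⁻¹) * (u * w⁻¹) := by ring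
          _ = _ := by rw [mul_inv_cancel₀ ha, one_mul]
      exact hq _ _ _ hne
    unfold averageC
    rw [e1, e2]
    exact h3

lemma part_two {c w : ℝ} (hc : 1 < c) (hn : ∀ m : ℕ, c ≠ m) (hw : w ≠ 0) (k : ℝ) :
    ∃ κ C : ℝ, 0 < κ ∧ 0 < C ∧ ∃ x₀ : ℕ, ∀ x : ℕ, x₀ ≤ x → ∀ P : ℝ[X], (P.natDegree : ℝ) < c → ∀ y : ℕ, 3 ≤ y →
      (y : ℝ) ≤ κ * Real.log x →
      C⁻¹ * Real.log y ^ (k * (k + 1) / 2) ≤ average c w P x y (fun D => central y D ^ k) ∧
      average c w P x y (fun D => central y D ^ k) ≤ C * Real.log y ^ (k * (k + 1) / 2) := by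
    obtain ⟨C, hC, H⟩ := real_moments_abs 2 le_rfl k
    obtain ⟨κ, hκ, x₀, Havg⟩ := near_avg hc hn hw ((4 : ℝ) ^ |k|) (2 * |k| + 1)
      (Real.one_le_rpow (by norm_num) (abs_nonneg k)) (by positivity)
    obtain ⟨C₀, hC₀, H₀⟩ := Pool.Agent.Q235.FE.sum_between (le_refl 2)
    obtain ⟨lam, hlam⟩ : ∃ lam, lam = k * (k + 1) / 2 := ⟨_, rfl⟩
    refine ⟨κ, C * Real.exp (|lam| * C₀), hκ, by positivity, x₀, fun x hx P hP y hy hyx => ?_⟩
    obtain ⟨h1, h2⟩ := H y (by omega) ℕ (freeIdx c w P x y) (member c w P) (Havg x hx P hP y hyx).2 (fun _ => 1) (fun _ => 0)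
      (fun _ => by norm_num) (fun _ => Or.inl rfl)
    have hx1 : (1 : ℝ) < y := by exact_mod_cast (by omega : 1 < y)
    have hlx : 0 < Real.log y := Real.log_pos hx1
    have e1 : ∑ p ∈ primesBetween 2 y, (k * (k + 1) * (1 : ℝ) ^ 2 / 2 - k * 0) / (p : ℝ) =
        lam * ∑ p ∈ primesBetween 2 y, 1 / (p : ℝ) := by
      rw [mul_sum, hlam]
      refine sum_congr rfl fun p _ => ?_
      ring
    have e2 : ∀ S : ℕ, ∏ p ∈ primesBetween 2 y,
          (1 - 1 * ((jacobiSym (member c w P S) p : ℝ) / Real.sqrt p) +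
            0 * ((jacobiSym (member c w P S) p : ℝ) / Real.sqrt p) ^ 2) ^ (-k) =
        central y (member c w P S) ^ k := by
      intro S
      unfold central
      have hpos : ∀ p ∈ primesBetween 2 y, 0 < 1 - (jacobiSym (member c w P S) p : ℝ) / Real.sqrt p := by
        intro p hp
        obtain ⟨g1, g2, g3, g4⟩ := Pool.Agent.Q235.FE.mem_between le_rfl hp
        obtain ⟨k1, k2, k3⟩ := Pool.Agent.Q235.FE.inv_sqrt g2
        have h3 : (jacobiSym (member c w P S) p : ℝ) ≤ 1 := by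
          rcases jacobiSym.trichotomy (member c w P S) p with h | h | h <;> rw [h] <;> norm_num
        have h4 : (jacobiSym (member c w P S) p : ℝ) / Real.sqrt p ≤ 1 / Real.sqrt p :=
          div_le_div_of_nonneg_right h3 (Real.sqrt_nonneg _)
        linarith
      rw [← Real.finsetProd_rpow _ _ (fun p hp => (inv_pos.2 (hpos p hp)).le)]
      refine prod_congr rfl fun p hp => ?_
      rw [one_mul, zero_mul, add_zero, Real.rpow_neg (hpos p hp).le, Real.inv_rpow (hpos p hp).le]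
    rw [e1, sum_congr rfl fun S _ => e2 S] at h1
    rw [e1, sum_congr rfl fun S _ => e2 S] at h2
    have h3 := abs_le.1 (H₀ y hy)
    obtain ⟨D, hD⟩ : ∃ D, D = ∑ p ∈ primesBetween 2 y, 1 / (p : ℝ) := ⟨_, rfl⟩
    rw [← hD] at h1 h2 h3
    have h4 : |lam * D - lam * Real.log (Real.log y)| ≤ |lam| * C₀ := by
      rw [← mul_sub, abs_mul]
      exact mul_le_mul_of_nonneg_left (abs_le.2 h3) (abs_nonneg _)
    have h5 := abs_le.1 h4
    have e3 : Real.log y ^ lam = Real.exp (lam * Real.log (Real.log y)) := by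
      rw [Real.rpow_def_of_pos hlx, mul_comm]
    unfold average
    rw [← hlam, e3]
    constructor
    · refine le_trans ?_ h1
      rw [mul_inv, ← Real.exp_neg, mul_assoc, ← Real.exp_add]
      apply mul_le_mul_of_nonneg_left _ (inv_pos.2 hC).le
      exact Real.exp_le_exp.2 (by linarith [h5.1])
    · refine h2.trans ?_
      rw [mul_assoc, ← Real.exp_add]
      apply mul_le_mul_of_nonneg_left _ hC.le
      exact Real.exp_le_exp.2 (by linarith [h5.2])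

lemma central_eq (y : ℕ) (D : ℤ) :
    central y D = (Pool.Agent.Q235.FE.euler 2 y (fun _ => 1) (fun _ => 0) D)⁻¹ := by
  unfold central Pool.Agent.Q235.FE.euler
  rw [← prod_inv_distrib]
  refine prod_congr rfl fun p _ => ?_
  rw [one_mul, zero_mul, add_zero]

lemma part_three {c w : ℝ} (hc : 1 < c) (hn : ∀ m : ℕ, c ≠ m) (hw : w ≠ 0) (ρ ε : ℝ) (hε : 0 < ε) :
    ∃ κ : ℝ, 0 < κ ∧ ∃ x₀ Y₀ : ℕ, ∀ x : ℕ, x₀ ≤ x → ∀ P : ℝ[X], (P.natDegree : ℝ) < c → ∀ y : ℕ, Y₀ ≤ y →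
      (y : ℝ) ≤ κ * Real.log x →
      (1 / 2 ≤ ρ →
        Real.log y ^ (-((ρ - 1 / 2) ^ 2 / 2) - ε) ≤ share c w P x y (fun D => Real.log y ^ ρ ≤ central y D) ∧
        share c w P x y (fun D => Real.log y ^ ρ ≤ central y D) ≤ Real.log y ^ (-((ρ - 1 / 2) ^ 2 / 2) + ε)) ∧
      (ρ ≤ 1 / 2 →
        Real.log y ^ (-((ρ - 1 / 2) ^ 2 / 2) - ε) ≤ share c w P x y (fun D => central y D ≤ Real.log y ^ ρ) ∧
        share c w P x y (fun D => central y D ≤ Real.log y ^ ρ) ≤ Real.log y ^ (-((ρ - 1 / 2) ^ 2 / 2) + ε)) := by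
  obtain ⟨C₀, hC₀, H₀⟩ := Pool.Agent.Q235.FE.sum_between (le_refl 2)
  have hu : ∀ (_ : Unit) (p : ℕ), |(fun _ : ℕ => (1 : ℝ)) p| ≤ 1 + (fun _ : ℕ => (0 : ℝ)) p := fun _ _ => by norm_num
  have hv : ∀ (_ : Unit) (p : ℕ), (fun _ : ℕ => (0 : ℝ)) p = 0 ∨ (fun _ : ℕ => (0 : ℝ)) p = 1 := fun _ _ => Or.inl rfl
  have hX : ∀ κ ε' : ℝ, 0 < ε' → ∃ X₂ : ℕ, ∀ _ : Unit, ∀ x : ℕ, X₂ ≤ x →
      |∑ p ∈ primesBetween 2 x, (κ * (κ + 1) * ((fun _ : ℕ => (1 : ℝ)) p) ^ 2 / 2 - κ * (fun _ : ℕ => (0 : ℝ)) p) / p -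
        (κ ^ 2 / 2 + 1 / 2 * κ) * Real.log (Real.log x)| ≤ ε' * Real.log (Real.log x) := by
    intro κ ε' hε'
    obtain ⟨X₁, hX₁⟩ := Filter.eventually_atTop.1
      (Pool.Agent.Q28.BP.tendsto_loglog.eventually_ge_atTop (|κ ^ 2 / 2 + 1 / 2 * κ| * C₀ / ε'))
    refine ⟨max X₁ 3, fun _ x hx => ?_⟩
    have h1 := hX₁ x ((le_max_left _ _).trans hx)
    rw [div_le_iff₀ hε'] at h1
    have h2 := H₀ x ((le_max_right _ _).trans hx)
    have e1 : ∑ p ∈ primesBetween 2 x, (κ * (κ + 1) * ((fun _ : ℕ => (1 : ℝ)) p) ^ 2 / 2 - κ * (fun _ : ℕ => (0 : ℝ)) p) / p -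
        (κ ^ 2 / 2 + 1 / 2 * κ) * Real.log (Real.log x) =
        (κ ^ 2 / 2 + 1 / 2 * κ) * (∑ p ∈ primesBetween 2 x, 1 / (p : ℝ) - Real.log (Real.log x)) := by
      rw [mul_sub, mul_sum]
      congr 1
      refine sum_congr rfl fun p _ => ?_
      ring
    rw [e1, abs_mul]
    have h3 := mul_le_mul_of_nonneg_left h2 (abs_nonneg (κ ^ 2 / 2 + 1 / 2 * κ))
    linarith
  -- both tails
  have big : ∃ κ : ℝ, 0 < κ ∧ ∃ x₀ Y₀ : ℕ, (1 / 2 ≤ ρ → ∀ x : ℕ, x₀ ≤ x → ∀ P : ℝ[X], (P.natDegree : ℝ) < c → ∀ y : ℕ,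
      Y₀ ≤ y → (y : ℝ) ≤ κ * Real.log x →
        Real.log y ^ (-((ρ - 1 / 2) ^ 2 / 2) - ε) ≤ share c w P x y (fun D => Real.log y ^ ρ ≤ central y D) ∧
        share c w P x y (fun D => Real.log y ^ ρ ≤ central y D) ≤ Real.log y ^ (-((ρ - 1 / 2) ^ 2 / 2) + ε)) := by
    by_cases hρ : 1 / 2 ≤ ρ
    · obtain ⟨B, A, X₀, hB, hA, h16, H⟩ := ld_abs 2 le_rfl (1 / 2) (fun _ : Unit => fun _ : ℕ => (1 : ℝ))
        (fun _ : Unit => fun _ : ℕ => (0 : ℝ)) hu hv hX 1 (Or.inl rfl) ρ ε (by linarith) hε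
      obtain ⟨κ, hκ, x₀, Havg⟩ := near_avg hc hn hw B A hB hA
      refine ⟨κ, hκ, x₀, X₀, fun _ x hx P hP y hy hyx => ?_⟩
      have h1 := H () y hy ℕ (freeIdx c w P x y) (member c w P) (Havg x hx P hP y hyx).2
      have hlx : 0 < Real.log y := Real.log_pos (by exact_mod_cast (by omega : 1 < y))
      have e : (fun S : ℕ => ρ * Real.log (Real.log y) ≤
          -1 * Real.log (Pool.Agent.Q235.FE.euler 2 y (fun _ => 1) (fun _ => 0) (member c w P S))) =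
          fun S => Real.log y ^ ρ ≤ central y (member c w P S) := by
        funext S
        have h2 := Pool.Agent.Q235.FE.euler_pos (x := y) le_rfl (fun _ => 1) (fun _ => 0) (hu ()) (hv ()) (member c w P S)
        rw [central_eq]
        have h3 : -1 * Real.log (Pool.Agent.Q235.FE.euler 2 y (fun _ => 1) (fun _ => 0) (member c w P S)) =
          Real.log (Pool.Agent.Q235.FE.euler 2 y (fun _ => 1) (fun _ => 0) (member c w P S))⁻¹ := by
          rw [Real.log_inv]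
          ring
        rw [h3, Real.le_log_iff_exp_le (inv_pos.2 h2), Real.rpow_def_of_pos hlx, mul_comm]
      rw [one_mul, e] at h1
      exact h1
    · exact ⟨1, one_pos, 0, 0, fun h => absurd h hρ⟩
  have small : ∃ κ : ℝ, 0 < κ ∧ ∃ x₀ Y₀ : ℕ, (ρ ≤ 1 / 2 → ∀ x : ℕ, x₀ ≤ x → ∀ P : ℝ[X], (P.natDegree : ℝ) < c → ∀ y : ℕ,
      Y₀ ≤ y → (y : ℝ) ≤ κ * Real.log x →
        Real.log y ^ (-((ρ - 1 / 2) ^ 2 / 2) - ε) ≤ share c w P x y (fun D => central y D ≤ Real.log y ^ ρ) ∧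
        share c w P x y (fun D => central y D ≤ Real.log y ^ ρ) ≤ Real.log y ^ (-((ρ - 1 / 2) ^ 2 / 2) + ε)) := by
    by_cases hρ : ρ ≤ 1 / 2
    · obtain ⟨B, A, X₀, hB, hA, h16, H⟩ := ld_abs 2 le_rfl (1 / 2) (fun _ : Unit => fun _ : ℕ => (1 : ℝ))
        (fun _ : Unit => fun _ : ℕ => (0 : ℝ)) hu hv hX (-1) (Or.inr rfl) (-ρ) ε (by linarith) hε
      obtain ⟨κ, hκ, x₀, Havg⟩ := near_avg hc hn hw B A hB hA
      refine ⟨κ, hκ, x₀, X₀, fun _ x hx P hP y hy hyx => ?_⟩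
      have h1 := H () y hy ℕ (freeIdx c w P x y) (member c w P) (Havg x hx P hP y hyx).2
      have hlx : 0 < Real.log y := Real.log_pos (by exact_mod_cast (by omega : 1 < y))
      have e : (fun S : ℕ => -ρ * Real.log (Real.log y) ≤
          - -1 * Real.log (Pool.Agent.Q235.FE.euler 2 y (fun _ => 1) (fun _ => 0) (member c w P S))) =
          fun S => central y (member c w P S) ≤ Real.log y ^ ρ := by
        funext S
        have h2 := Pool.Agent.Q235.FE.euler_pos (x := y) le_rfl (fun _ => 1) (fun _ => 0) (hu ()) (hv ()) (member c w P S)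
        rw [central_eq]
        have h3 : (-ρ * Real.log (Real.log y) ≤
          - -1 * Real.log (Pool.Agent.Q235.FE.euler 2 y (fun _ => 1) (fun _ => 0) (member c w P S))) ↔
          (Real.log (Pool.Agent.Q235.FE.euler 2 y (fun _ => 1) (fun _ => 0) (member c w P S))⁻¹ ≤
            ρ * Real.log (Real.log y)) := by
          rw [Real.log_inv]
          constructor <;> intro h <;> linarith
        rw [h3, Real.log_le_iff_le_exp (inv_pos.2 h2), Real.rpow_def_of_pos hlx, mul_comm (Real.log (Real.log y)) ρ]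
      have e2 : (-ρ - -1 * (1 / 2)) ^ 2 = (ρ - 1 / 2) ^ 2 := by ring
      rw [e, e2] at h1
      exact h1
    · exact ⟨1, one_pos, 0, 0, fun h => absurd h hρ⟩
  obtain ⟨κ₁, hκ₁, x₁, Y₁, H₁⟩ := big
  obtain ⟨κ₂, hκ₂, x₂, Y₂, H₂⟩ := small
  refine ⟨min κ₁ κ₂, lt_min hκ₁ hκ₂, x₁ + x₂ + 1, Y₁ + Y₂, fun x hx P hP y hy hyx => ?_⟩
  have hl : 0 ≤ Real.log x := Real.log_nonneg (by exact_mod_cast (by omega : 1 ≤ x))
  refine ⟨fun h => ?_, fun h => ?_⟩
  · exact H₁ h x (by omega) P hP y (by omega) (hyx.trans (mul_le_mul_of_nonneg_right (min_le_left _ _) hl))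
  · exact H₂ h x (by omega) P hP y (by omega) (hyx.trans (mul_le_mul_of_nonneg_right (min_le_right _ _) hl))

/-- **Moments and distribution of truncated central values over `D_n = ⌊w n ^ c + P(n)⌋`.** Let `c > 1` be not an integer and
`w ≠ 0` real. The averages and proportions are over the `n ≤ x` for which `D_n` is not divisible by the square of any prime
`5 ≤ p ≤ y`; everything holds uniformly in the real polynomials `P` of degree less than `c`.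

1. For all `k` and `A ≥ 0` there are `κ > 0` and `x₀` such that for all `x ≥ x₀` and `y ≤ κ log x` at least `x / 4` of the
   `n ≤ x` are of this kind, and for all `z` with `Re z_j ≥ -1/4` the average of `∏_j L_y(1/2 + z_j, χ_D)` is the product of
   the Euler factors of `A_k(z) ∏_{i ≤ j} ζ(1 + z_i + z_j)` at the primes `5 ≤ p ≤ y`, up to `3^{-A y}`.
2. For all real `k` there are `κ, C > 0` and `x₀` such that for all `x ≥ x₀` and `3 ≤ y ≤ κ log x` the average of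
   `L_y(1/2, χ_D)^k` is between `C⁻¹ (log y)^{k(k+1)/2}` and `C (log y)^{k(k+1)/2}`.
3. For all real `ρ` and `ε > 0` there are `κ > 0`, `x₀` and `Y₀` such that for all `x ≥ x₀` and `Y₀ ≤ y ≤ κ log x`: if
   `ρ ≥ 1/2`, the proportion with `(log y)^ρ ≤ L_y(1/2, χ_D)` is between `(log y)^(-(ρ - 1/2)² / 2 - ε)` and
   `(log y)^(-(ρ - 1/2)² / 2 + ε)`; if `ρ ≤ 1/2`, the same for the proportion with `L_y(1/2, χ_D) ≤ (log y)^ρ`. -/
theorem result {c w : ℝ} (hc : 1 < c) (hn : ∀ m : ℕ, c ≠ m) (hw : w ≠ 0) :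
    (∀ (k : ℕ) (A : ℝ), 0 ≤ A → ∃ κ : ℝ, 0 < κ ∧ ∃ x₀ : ℕ, ∀ x : ℕ, x₀ ≤ x → ∀ P : ℝ[X], (P.natDegree : ℝ) < c →
      ∀ y : ℕ, (y : ℝ) ≤ κ * Real.log x →
        (x : ℝ) / 4 ≤ (freeIdx c w P x y).card ∧ ∀ z : Fin k → ℂ, (∀ j, -(1 / 4) ≤ (z j).re) →
          ‖averageC c w P x y (shifted y z) - ∏ p ∈ primesBetween 2 y, (arithmetic z p * zetas z p)‖ ≤
            (3 : ℝ) ^ (-(A * y))) ∧
    (∀ k : ℝ, ∃ κ C : ℝ, 0 < κ ∧ 0 < C ∧ ∃ x₀ : ℕ, ∀ x : ℕ, x₀ ≤ x → ∀ P : ℝ[X], (P.natDegree : ℝ) < c → ∀ y : ℕ, 3 ≤ y →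
      (y : ℝ) ≤ κ * Real.log x →
        C⁻¹ * Real.log y ^ (k * (k + 1) / 2) ≤ average c w P x y (fun D => central y D ^ k) ∧
        average c w P x y (fun D => central y D ^ k) ≤ C * Real.log y ^ (k * (k + 1) / 2)) ∧
    ∀ ρ ε : ℝ, 0 < ε → ∃ κ : ℝ, 0 < κ ∧ ∃ x₀ Y₀ : ℕ, ∀ x : ℕ, x₀ ≤ x → ∀ P : ℝ[X], (P.natDegree : ℝ) < c → ∀ y : ℕ,
      Y₀ ≤ y → (y : ℝ) ≤ κ * Real.log x →
        (1 / 2 ≤ ρ →
          Real.log y ^ (-((ρ - 1 / 2) ^ 2 / 2) - ε) ≤ share c w P x y (fun D => Real.log y ^ ρ ≤ central y D) ∧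
          share c w P x y (fun D => Real.log y ^ ρ ≤ central y D) ≤ Real.log y ^ (-((ρ - 1 / 2) ^ 2 / 2) + ε)) ∧
        (ρ ≤ 1 / 2 →
          Real.log y ^ (-((ρ - 1 / 2) ^ 2 / 2) - ε) ≤ share c w P x y (fun D => central y D ≤ Real.log y ^ ρ) ∧
          share c w P x y (fun D => central y D ≤ Real.log y ^ ρ) ≤ Real.log y ^ (-((ρ - 1 / 2) ^ 2 / 2) + ε)) :=
  ⟨part_one hc hn hw, part_two hc hn hw, part_three hc hn hw⟩

end Pool.Agent.Results.MP_ea46f5_nt.MomentsNearPowers
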